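import Pool.Agent.Helper54.PT.LocG

/-!
# The descent group, scaling
-/

set_option autoImplicit false

namespace Pool.Agent.Helper54.PT

open Finset Pool.Agent.Helper43.TW Pool.Agent.Helper47.BSD

universe u

section Local

variable {k : Type u} [NontriviallyNormedField k] [IsUltrametricDist k] [CompleteSpace k]
  {ℓ : ℕ} {π : k} {ι : Type} [Fintype ι] [DecidableEq ι] {a : ι → ℕ} {E : ι → k}

variable {w w' : ι → Cl ℓ k} {i₁ i₁' : ι} {ρ ρ' : ℝ} {n n' : ZMod ℓ}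

/-- L7: the descent group; the hypothesis `hL3` is L3 (`ptData_of_point`) -/
theorem closure_ptData (hℓ : ℓ.Prime) (hk : LF ℓ π) (hc : cl ℓ (-1 : k) = 0)
    (ha : ∀ i, ¬ ℓ ∣ a i) (hs : ¬ ℓ ∣ ∑ i, a i) (hE : ∀ i j, i ≠ j → E i ≠ E j) {d : ι → kˣ}
    (hd : d ∈ descentGroup ℓ a E)
    (hL3 : ∀ d : ι → kˣ, IsPointValue ℓ a E d → PtData hk a E (fun i => cl ℓ (d i : k))) :
    (fun i => cl ℓ (d i : k)) ∈ AddSubgroup.closure {w : ι → Cl ℓ k | PtData hk a E w} := by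
  induction hd using Subgroup.closure_induction with
  | mem x hx =>
    rcases hx with hx | ⟨c, rfl⟩
    · exact AddSubgroup.subset_closure (hL3 x hx)
    · have h1 : (fun i => cl ℓ ((((fun c : ι → kˣ => c ^ ℓ) c : ι → kˣ) i : kˣ) : k)) = 0 := by
        funext i
        change cl ℓ (((c ^ ℓ : ι → kˣ) i : kˣ) : k) = 0
        rw [Pi.pow_apply, Units.val_pow_eq_pow_val, cl_pow_ell (c i).ne_zero]
      rw [h1]
      exact zero_mem _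
  | one =>
    have h1 : (fun i => cl ℓ (((1 : ι → kˣ) i : kˣ) : k)) = 0 := by
      funext i
      rw [Pi.one_apply, Units.val_one, cl_one]
      rfl
    rw [h1]
    exact zero_mem _
  | mul x y _ _ hx hy =>
    have h1 : (fun i => cl ℓ (((x * y) i : kˣ) : k)) =
        (fun i => cl ℓ (x i : k)) + fun i => cl ℓ (y i : k) := by
      funext i
      rw [Pi.mul_apply, Units.val_mul, cl_mul (x i).ne_zero (y i).ne_zero]
      rfl
    rw [h1]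
    exact add_mem hx hy
  | inv x _ hx =>
    have h1 : (fun i => cl ℓ (((x⁻¹) i : kˣ) : k)) = -(fun i => cl ℓ (x i : k)) := by
      funext i
      rw [Pi.inv_apply, Units.val_inv_eq_inv_val, cl_inv (x i).ne_zero]
      rfl
    rw [h1]
    exact neg_mem hx

/-- L9: scaling -/
theorem ptData_scale (hℓ : ℓ.Prime) (hk : LF ℓ π) {u : k} (hu : u ≠ 0)
    (hE : ∀ i j, i ≠ j → E i ≠ E j) (hw : PtData hk a (fun i => u ^ ℓ * E i) w) :
    PtData hk a E w := by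
  obtain ⟨i₁, ρ, n, h⟩ := hw
  have hr : 0 < ‖u‖ ^ ℓ := pow_pos (norm_pos_iff.2 hu) _
  have hn : ∀ i j, ‖u ^ ℓ * E i - u ^ ℓ * E j‖ = ‖u‖ ^ ℓ * ‖E i - E j‖ := by
    intro i j
    rw [← mul_sub, norm_mul, norm_pow]
  have hlt : ∀ i j, ρ / ‖u‖ ^ ℓ < ‖E i - E j‖ ↔ ρ < ‖u ^ ℓ * E i - u ^ ℓ * E j‖ := by
    intro i j
    rw [hn, div_lt_iff₀' hr]
  have hle : ∀ i j, ‖E i - E j‖ ≤ ρ / ‖u‖ ^ ℓ ↔ ‖u ^ ℓ * E i - u ^ ℓ * E j‖ ≤ ρ := by
    intro i j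
    rw [hn, le_div_iff₀' hr]
  have hlt2 : ∀ i j, ‖E i - E j‖ < ρ / ‖u‖ ^ ℓ ↔ ‖u ^ ℓ * E i - u ^ ℓ * E j‖ < ρ := by
    intro i j
    rw [hn, lt_div_iff₀' hr]
  have hpos' : 0 < ρ / ‖u‖ ^ ℓ := div_pos h.pos hr
  have hne : ∀ i, ρ / ‖u‖ ^ ℓ < ‖E i - E i₁‖ → E i₁ - E i ≠ 0 := by
    intro i hi h0
    rw [← norm_sub_rev, h0, norm_zero] at hi
    exact absurd hpos' (not_lt.2 hi.le)
  have hcl : ∀ i, ρ / ‖u‖ ^ ℓ < ‖E i - E i₁‖ →
      cl ℓ (u ^ ℓ * E i₁ - u ^ ℓ * E i) = cl ℓ (E i₁ - E i) := by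
    intro i hi
    rw [← mul_sub, cl_mul (pow_ne_zero _ hu) (hne i hi), cl_pow_ell hu, zero_add]
  have hC : outC ℓ a (fun i => u ^ ℓ * E i) i₁ ρ = outC ℓ a E i₁ (ρ / ‖u‖ ^ ℓ) := by
    unfold outC
    have hf : univ.filter (fun i => ρ < ‖u ^ ℓ * E i - u ^ ℓ * E i₁‖) =
        univ.filter (fun i => ρ / ‖u‖ ^ ℓ < ‖E i - E i₁‖) :=
      filter_congr fun i _ => (hlt i i₁).symm
    rw [hf]
    exact sum_congr rfl fun i hi => by rw [hcl i (mem_filter.1 hi).2]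
  have hI : inA ℓ a (fun i => u ^ ℓ * E i) i₁ ρ = inA ℓ a E i₁ (ρ / ‖u‖ ^ ℓ) := by
    unfold inA
    have hf : univ.filter (fun i => ‖u ^ ℓ * E i - u ^ ℓ * E i₁‖ ≤ ρ) =
        univ.filter (fun i => ‖E i - E i₁‖ ≤ ρ / ‖u‖ ^ ℓ) :=
      filter_congr fun i _ => (hle i i₁).symm
    rw [hf]
  refine ⟨i₁, ρ / ‖u‖ ^ ℓ, n, hpos', fun i hi => ?_, h.rel, ?_⟩
  · rw [h.out i ((hlt i i₁).1 hi), hcl i hi]
  rcases h.ins with ⟨m, hm, h1, h2, h3⟩ | ⟨h1, h2, h3⟩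
  · left
    obtain ⟨s, hs⟩ := hk.disc u hu
    have hcast : ((m - ℓ * s : ℤ) : ZMod ℓ) = (m : ZMod ℓ) := by simp
    refine ⟨m - ℓ * s, ?_, fun i hi => ?_, fun i j hi hj hij => ?_, fun i hi => ?_⟩
    · rw [hm, hs, zpow_sub₀ hk.pos.ne', ← zpow_natCast (‖π‖ ^ s), ← zpow_mul, mul_comm s]
    · rw [hcast]
      exact h1 i ((hle i i₁).1 hi)
    · exact h2 i j ((hle i i₁).1 hi) ((hle j i₁).1 hj) ((hlt2 i j).1 hij)
    · rw [hcast, ← hC, ← hI]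
      exact h3 i ((hle i i₁).1 hi)
  · right
    refine ⟨fun i hi => h1 i ((hle i i₁).1 hi), fun i j hi hj => ?_, ?_⟩
    · exact (hlt2 i j).2 (h2 i j ((hle i i₁).1 hi) ((hle j i₁).1 hj))
    · rw [← hC]
      exact h3

end Local

end Pool.Agent.Helper54.PT
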