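import Pool.Agent.Helper54.PT.DefsG
import Pool.Agent.Helper36.TW.C10C11

/-!
# Lagrangians of the local spaces
-/

set_option autoImplicit false

namespace Pool.Agent.Helper96.TG

open Finset hiding ext
open Module Pool.Agent.Helper54.PT

section Abstract

variable {K V : Type*} [Field K] [AddCommGroup V] [Module K V] [FiniteDimensional K V]

/-- Maximal isotropic subspaces. -/
theorem exists_lag (B : LinearMap.BilinForm K V) (hB : B.Nondegenerate) (hA : ∀ x, B x x = 0)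
    (W : Set V) (hW : ∀ w ∈ W, ∀ w' ∈ W, B w w' = 0) :
    ∃ M : Submodule K V, 2 * finrank K M = finrank K V ∧
      (∀ w ∈ M, ∀ w' ∈ M, B w w' = 0) ∧ W ⊆ M := by
  classical
  have hsw : ∀ x y, B x y = -B y x := by
    intro x y
    have h := hA (x + y)
    simp only [map_add, LinearMap.add_apply, hA, zero_add, add_zero] at h
    linear_combination h
  let P : ℕ → Prop := fun n => ∃ M : Submodule K V, finrank K M = n ∧
    (∀ w ∈ M, ∀ w' ∈ M, B w w' = 0) ∧ W ⊆ M
  have hspan : ∀ w ∈ Submodule.span K W, ∀ w' ∈ Submodule.span K W, B w w' = 0 := by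
    intro w hw w' hw'
    induction hw using Submodule.span_induction with
    | mem x hx =>
      induction hw' using Submodule.span_induction with
      | mem y hy => exact hW x hx y hy
      | zero => rw [map_zero]
      | add y y' _ _ h1 h2 => rw [map_add, h1, h2, add_zero]
      | smul c y _ h1 => rw [map_smul, h1, smul_zero]
    | zero => rw [map_zero, LinearMap.zero_apply]
    | add y y' _ _ h1 h2 => rw [map_add, LinearMap.add_apply, h1, h2, add_zero]
    | smul c y _ h1 => rw [map_smul, LinearMap.smul_apply, h1, smul_zero]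
  have h0 : P (finrank K (Submodule.span K W)) :=
    ⟨Submodule.span K W, rfl, hspan, Submodule.subset_span⟩
  have h1 : P (Nat.findGreatest P (finrank K V)) :=
    Nat.findGreatest_spec (Submodule.finrank_le _) h0
  obtain ⟨M, hMn, hMi, hWM⟩ := h1
  have hmax : ∀ M' : Submodule K V, (∀ w ∈ M', ∀ w' ∈ M', B w w' = 0) → W ⊆ M' →
      finrank K M' ≤ finrank K M := by
    intro M' h2 h3
    rw [hMn]
    exact Nat.le_findGreatest (Submodule.finrank_le _) ⟨M', rfl, h2, h3⟩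
  have hle : B.orthogonal M ≤ M := by
    intro v hv
    rw [LinearMap.BilinForm.mem_orthogonal_iff] at hv
    by_contra hvM
    have hlt : M < M ⊔ Submodule.span K {v} := by
      refine lt_of_le_of_ne le_sup_left fun h => hvM ?_
      rw [h]
      exact Submodule.mem_sup_right (Submodule.mem_span_singleton_self v)
    have h4 := Submodule.finrank_lt_finrank_of_lt hlt
    refine absurd (hmax (M ⊔ Submodule.span K {v}) ?_ (fun x hx =>
      Submodule.mem_sup_left (hWM hx))) (not_le.2 h4)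
    intro w hw w' hw'
    obtain ⟨m, hm, s, hs, rfl⟩ := Submodule.mem_sup.1 hw
    obtain ⟨m', hm', s', hs', rfl⟩ := Submodule.mem_sup.1 hw'
    obtain ⟨c, rfl⟩ := Submodule.mem_span_singleton.1 hs
    obtain ⟨c', rfl⟩ := Submodule.mem_span_singleton.1 hs'
    simp only [map_add, LinearMap.add_apply, map_smul, LinearMap.smul_apply, hMi m hm m' hm',
      hv m hm, hsw v m', hv m' hm', hA]
    simp
  have hge : M ≤ B.orthogonal M := fun v hv => by
    rw [LinearMap.BilinForm.mem_orthogonal_iff]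
    exact fun m hm => hMi m hm v hv
  have heq : B.orthogonal M = M := le_antisymm hle hge
  have h5 := LinearMap.BilinForm.finrank_orthogonal hB M
  rw [heq] at h5
  have h6 := Submodule.finrank_le M
  exact ⟨M, by omega, hMi, hWM⟩

end Abstract

section Pz

variable {ℓ : ℕ}

theorem pzG_add_left (x y z : ZMod ℓ × ZMod ℓ) : pzG (x + y) z = pzG x z + pzG y z := by
  simp only [pzG, Prod.fst_add, Prod.snd_add]
  ring

theorem pzG_add_right (x y z : ZMod ℓ × ZMod ℓ) : pzG x (y + z) = pzG x y + pzG x z := by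
  simp only [pzG, Prod.fst_add, Prod.snd_add]
  ring

theorem pzG_smul_left (c : ZMod ℓ) (x z : ZMod ℓ × ZMod ℓ) : pzG (c • x) z = c * pzG x z := by
  simp only [pzG, Prod.smul_fst, Prod.smul_snd, smul_eq_mul]
  ring

theorem pzG_smul_right (c : ZMod ℓ) (x z : ZMod ℓ × ZMod ℓ) : pzG x (c • z) = c * pzG x z := by
  simp only [pzG, Prod.smul_fst, Prod.smul_snd, smul_eq_mul]
  ring

theorem pzG_self (x : ZMod ℓ × ZMod ℓ) : pzG x x = 0 := by
  simp only [pzG]
  ring

end Pz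

section Lag

variable {ℓ : ℕ} [Fact ℓ.Prime] {ι : Type} [Fintype ι] [DecidableEq ι] {a : ι → ℕ} {i₀ : ι}

theorem exG_add (w w' : LSG ℓ i₀) (i : ι) : exG a i₀ (w + w') i = exG a i₀ w i + exG a i₀ w' i := by
  simp only [exG, Prod.fst_add, Prod.snd_add, ext_add, Pi.add_apply, Prod.mk_add_mk]

theorem exG_smul (ha : ¬ ℓ ∣ a i₀) (c : ZMod ℓ) (w : LSG ℓ i₀) (i : ι) :
    exG a i₀ (c • w) i = c • exG a i₀ w i := by
  have h1 := congrFun (C11_ext_mul a i₀ ha c w.1) i
  have h2 := congrFun (C11_ext_mul a i₀ ha c w.2) i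
  exact Prod.ext h1 h2

theorem bG_add_left (x y z : LSG ℓ i₀) : bG a i₀ (x + y) z = bG a i₀ x z + bG a i₀ y z := by
  simp only [bG, exG_add, pzG_add_left, mul_add, sum_add_distrib]

theorem bG_add_right (x y z : LSG ℓ i₀) : bG a i₀ x (y + z) = bG a i₀ x y + bG a i₀ x z := by
  simp only [bG, exG_add, pzG_add_right, mul_add, sum_add_distrib]

theorem bG_smul_left (ha : ¬ ℓ ∣ a i₀) (c : ZMod ℓ) (x z : LSG ℓ i₀) :
    bG a i₀ (c • x) z = c • bG a i₀ x z := by
  simp only [bG, exG_smul ha, pzG_smul_left, smul_eq_mul]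
  rw [mul_sum]
  exact sum_congr rfl fun i _ => by ring

theorem bG_smul_right (ha : ¬ ℓ ∣ a i₀) (c : ZMod ℓ) (x z : LSG ℓ i₀) :
    bG a i₀ x (c • z) = c • bG a i₀ x z := by
  simp only [bG, exG_smul ha, pzG_smul_right, smul_eq_mul]
  rw [mul_sum]
  exact sum_congr rfl fun i _ => by ring

theorem bG_self (x : LSG ℓ i₀) : bG a i₀ x x = 0 := by
  simp only [bG, pzG_self, mul_zero, sum_const_zero]

/-- The bilinear form. -/
def bGL (ha : ¬ ℓ ∣ a i₀) : LinearMap.BilinForm (ZMod ℓ) (LSG ℓ i₀) :=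
  LinearMap.mk₂ (ZMod ℓ) (bG a i₀) bG_add_left (bG_smul_left ha) bG_add_right (bG_smul_right ha)

theorem bGL_apply (ha : ¬ ℓ ∣ a i₀) (x y : LSG ℓ i₀) : bGL ha x y = bG a i₀ x y := rfl

/-- A vector of the hyperplane orthogonal to the hyperplane is zero. -/
theorem hyp_nondeg (ha : ∀ i, ¬ ℓ ∣ a i) (hs : ¬ ℓ ∣ ∑ i, a i) (x : ι → ZMod ℓ)
    (hx : ∑ i, (a i : ZMod ℓ) * x i = 0)
    (h : ∀ y : ι → ZMod ℓ, ∑ i, (a i : ZMod ℓ) * y i = 0 →
      ∑ i, (a i : ZMod ℓ) * (x i * y i) = 0) : x = 0 := by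
  have ha0 : ∀ i, (a i : ZMod ℓ) ≠ 0 := fun i => by rw [Ne, ZMod.natCast_eq_zero_iff]; exact ha i
  have hA : ∑ i, (a i : ZMod ℓ) ≠ 0 := by
    rw [← Nat.cast_sum, Ne, ZMod.natCast_eq_zero_iff]
    exact hs
  have hconst : ∀ i j, x i = x j := by
    intro i j
    rcases eq_or_ne i j with hij | hij
    · rw [hij]
    have hsum : ∀ f : ι → ZMod ℓ, ∑ m, (a m : ZMod ℓ) * (f m * (if m = i then (a j : ZMod ℓ) else
        if m = j then -(a i : ZMod ℓ) else 0)) = a i * a j * (f i - f j) := by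
      intro f
      rw [← add_sum_erase _ _ (mem_univ i),
        ← add_sum_erase _ _ (mem_erase.2 ⟨hij.symm, mem_univ j⟩), if_pos rfl, if_neg hij.symm,
        if_pos rfl, sum_eq_zero]
      · ring
      · intro m hm
        rw [mem_erase, mem_erase] at hm
        rw [if_neg hm.2.1, if_neg hm.1, mul_zero, mul_zero]
    have h1 := h (fun m => if m = i then (a j : ZMod ℓ) else if m = j then -(a i : ZMod ℓ) else 0) (by
      have h2 := hsum (fun _ => 1)
      simp only [one_mul, sub_self, mul_zero] at h2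
      exact h2)
    rw [hsum x] at h1
    exact sub_eq_zero.1 ((mul_eq_zero.1 h1).resolve_left (mul_ne_zero (ha0 i) (ha0 j)))
  funext i
  have h2 : (∑ j, (a j : ZMod ℓ)) * x i = 0 := by
    rw [sum_mul, ← hx]
    exact sum_congr rfl fun j _ => by rw [hconst i j]
  exact (mul_eq_zero.1 h2).resolve_left hA

theorem bG_nondeg (ha : ∀ i, ¬ ℓ ∣ a i) (hs : ¬ ℓ ∣ ∑ i, a i) (w : LSG ℓ i₀)
    (h : ∀ w', bG a i₀ w w' = 0) : w = 0 := by
  have key : ∀ y : ι → ZMod ℓ, ∑ i, (a i : ZMod ℓ) * y i = 0 →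
      ext a i₀ (fun j => y j.1) = y := fun y hy => C11_ext a i₀ (ha i₀) y hy _ fun j => rfl
  have hz : ext a i₀ (0 : {j : ι // j ≠ i₀} → ZMod ℓ) = 0 := funext (ext_zero a i₀)
  have hr : ∀ (v : {j : ι // j ≠ i₀} → ZMod ℓ), ext a i₀ v = 0 → v = 0 := by
    intro v hv
    funext j
    have h1 := congrFun hv j.1
    unfold ext at h1
    rw [dif_neg j.2] at h1
    exact h1
  have h1 : ext a i₀ w.1 = 0 := by
    refine hyp_nondeg ha hs _ (C11_ext_sum a i₀ (ha i₀) w.1) fun y hy => ?_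
    have h2 := h (0, fun j => y j.1)
    simp only [bG, exG, pzG, key y hy, hz, Pi.zero_apply, mul_zero, sub_zero] at h2
    exact h2
  have h2 : ext a i₀ w.2 = 0 := by
    refine hyp_nondeg ha hs _ (C11_ext_sum a i₀ (ha i₀) w.2) fun y hy => ?_
    have h2 := h (fun j => y j.1, 0)
    simp only [bG, exG, pzG, key y hy, hz, Pi.zero_apply, mul_zero, zero_sub, mul_neg,
      sum_neg_distrib, neg_eq_zero] at h2
    exact h2
  exact Prod.ext (hr _ h1) (hr _ h2)

theorem bG_swap (x y : LSG ℓ i₀) : bG a i₀ x y = -bG a i₀ y x := by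
  simp only [bG, pzG]
  rw [← sum_neg_distrib]
  exact sum_congr rfl fun i _ => by ring

theorem bGL_nondeg (ha : ∀ i, ¬ ℓ ∣ a i) (hs : ¬ ℓ ∣ ∑ i, a i) :
    (bGL (ha i₀) : LinearMap.BilinForm (ZMod ℓ) (LSG ℓ i₀)).Nondegenerate := by
  refine ⟨fun x hx => bG_nondeg ha hs x hx, fun x hx => bG_nondeg ha hs x fun y => ?_⟩
  rw [bG_swap, neg_eq_zero]
  exact hx y

theorem finrank_LSG : finrank (ZMod ℓ) (LSG ℓ i₀) = 2 * Fintype.card {j : ι // j ≠ i₀} := by
  rw [finrank_prod, finrank_pi, two_mul]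

end Lag

end Pool.Agent.Helper96.TG

namespace Pool.Agent.Helper54.PT

open Finset Module Pool.Agent.Helper96.TG

section Lag

variable {ℓ : ℕ} [Fact ℓ.Prime] {ι : Type} [Fintype ι] [DecidableEq ι] {a : ι → ℕ} {i₀ : ι}

/-- E0: tuples -/
theorem exG_mkG (ha : ¬ ℓ ∣ a i₀) {u : ι → ZMod ℓ × ZMod ℓ}
    (hu : ∑ i, (a i : ZMod ℓ) • u i = 0) (i : ι) : exG a i₀ (mkG i₀ u) i = u i := by
  have h1 := congrArg Prod.fst hu
  have h2 := congrArg Prod.snd hu
  rw [Prod.fst_sum] at h1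
  rw [Prod.snd_sum] at h2
  have h3 := congrFun (C11_ext a i₀ ha (fun j => (u j).1) h1 (mkG i₀ u).1 fun j => rfl) i
  have h4 := congrFun (C11_ext a i₀ ha (fun j => (u j).2) h2 (mkG i₀ u).2 fun j => rfl) i
  exact Prod.ext h3 h4

/-- E1: Lagrangians -/
theorem exists_lagG (ha : ∀ i, ¬ ℓ ∣ a i) (hs : ¬ ℓ ∣ ∑ i, a i) (W : Set (LSG ℓ i₀))
    (hW : ∀ w ∈ W, ∀ w' ∈ W, bG a i₀ w w' = 0) : ∃ M : Submodule (ZMod ℓ) (LSG ℓ i₀),
      finrank (ZMod ℓ) M = Fintype.card {j : ι // j ≠ i₀} ∧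
      (∀ w ∈ M, ∀ w' ∈ M, bG a i₀ w w' = 0) ∧ W ⊆ M := by
  obtain ⟨M, h1, h2, h3⟩ := exists_lag (bGL (ha i₀)) (bGL_nondeg ha hs) bG_self W hW
  rw [finrank_LSG] at h1
  exact ⟨M, by omega, h2, h3⟩

end Lag

end Pool.Agent.Helper54.PT
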