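import Pool.Agent.Helper54.PT.LocG

/-!
# Nested discs
-/

set_option autoImplicit false

namespace Pool.Agent.Helper54.PT

open Finset Pool.Agent.Helper43.TW Pool.Agent.Helper47.BSD

universe u

section Local

variable {k : Type u} [NontriviallyNormedField k] [IsUltrametricDist k] [CompleteSpace k]
  {ℓ : ℕ} {π : k} {ι : Type} [Fintype ι] [DecidableEq ι] {a : ι → ℕ} {E : ι → k}

variable {w w' : ι → Cl ℓ k} {i₁ i₁' : ι} {ρ ρ' : ℝ} {n n' : ZMod ℓ}

/-- L5b: nested discs -/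
theorem ptAt_nest (hℓ : ℓ.Prime) (hk : LF ℓ π) (hc : cl ℓ (-1 : k) = 0)
    (hE : ∀ i j, i ≠ j → E i ≠ E j) (hw : PtAt hk a E w i₁ ρ n) (hw' : PtAt hk a E w' i₁' ρ' n')
    (h : ‖E i₁ - E i₁'‖ ≤ ρ') (h' : ρ < ρ') :
    ∑ i, (a i : ZMod ℓ) • tm hk (w i) (w' i) = 0 := by
  classical
  -- outside the big disc
  have hnout : ∀ i, ρ' < ‖E i - E i₁'‖ → ‖E i - E i₁‖ = ‖E i - E i₁'‖ := by
    intro i hi
    exact norm_near (x := E i - E i₁) (y := E i - E i₁') (by
      rw [show E i - E i₁ - (E i - E i₁') = -(E i₁ - E i₁') by ring, norm_neg]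
      exact h.trans_lt hi)
  have hout : ∀ i, ρ' < ‖E i - E i₁'‖ → w i = n • cl ℓ (E i₁' - E i) := by
    intro i hi
    have h2 := hw.out i (by rw [hnout i hi]; exact h'.trans hi)
    have h3 := (cl_near hℓ hk (x := E i₁ - E i) (y := E i₁' - E i) (by
      rw [show E i₁ - E i - (E i₁' - E i) = E i₁ - E i₁' by ring, norm_sub_rev (E i₁') (E i)]
      exact h.trans_lt hi)).2.2
    rw [h2, h3]
  have hout' : ∀ i, ρ' < ‖E i - E i₁'‖ → w' i = n' • cl ℓ (E i₁' - E i) := hw'.out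
  set S := univ.filter (fun i => ‖E i - E i₁'‖ ≤ ρ') with hS
  set O := univ.filter (fun i => ρ' < ‖E i - E i₁'‖) with hO
  have hsplit : ∀ f : ι → Cl ℓ k, ∑ i, f i = ∑ i ∈ S, f i + ∑ i ∈ O, f i := by
    intro f
    rw [hS, hO, ← sum_filter_add_sum_filter_not univ (fun i => ‖E i - E i₁'‖ ≤ ρ') f]
    simp only [not_le]
  have hOw : ∑ i ∈ O, (a i : ZMod ℓ) • w i = n • outC ℓ a E i₁' ρ' := by
    rw [outC, smul_sum]
    refine sum_congr rfl fun i hi => ?_
    rw [hout i (mem_filter.1 hi).2, smul_comm]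
  have hOw' : ∑ i ∈ O, (a i : ZMod ℓ) • w' i = n' • outC ℓ a E i₁' ρ' := by
    rw [outC, smul_sum]
    refine sum_congr rfl fun i hi => ?_
    rw [hout' i (mem_filter.1 hi).2, smul_comm]
  have hSw : ∑ i ∈ S, (a i : ZMod ℓ) • w i = -(n • outC ℓ a E i₁' ρ') := by
    have h1 := hw.rel
    rw [hsplit, hOw] at h1
    exact eq_neg_of_add_eq_zero_left h1
  have hSw' : ∑ i ∈ S, (a i : ZMod ℓ) • w' i = -(n' • outC ℓ a E i₁' ρ') := by
    have h1 := hw'.rel
    rw [hsplit, hOw'] at h1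
    exact eq_neg_of_add_eq_zero_left h1
  have hO0 : ∑ i ∈ O, (a i : ZMod ℓ) • tm hk (w i) (w' i) = 0 := by
    refine sum_eq_zero fun i hi => ?_
    rw [hout i (mem_filter.1 hi).2, hout' i (mem_filter.1 hi).2, tm_smul_left, tm_smul_right,
      tm_self, smul_zero, smul_zero, smul_zero]
  rw [hsplit, hO0, add_zero]
  rcases hw'.ins with ⟨m, hm, hnu, heq, hlast⟩ | ⟨hconst, -, htm⟩
  · -- the radius is a value
    have hi₁ : ‖E i₁ - E i₁'‖ ≤ ρ' := h
    set η := w' i₁ with hη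
    -- the key identity
    have key : ∀ i ∈ S, (a i : ZMod ℓ) • tm hk (w i) (w' i) =
        (a i : ZMod ℓ) • tm hk (w i) η - (n * m : ZMod ℓ) • ((a i : ZMod ℓ) • w' i) +
          (n * m : ZMod ℓ) • ((a i : ZMod ℓ) • η) := by
      intro i hi
      have hi' := (mem_filter.1 hi).2
      rcases lt_or_ge ‖E i - E i₁‖ ρ' with h1 | h1
      · have h2 : w' i = η := heq i i₁ hi' hi₁ h1
        rw [h2]
        module
      · have h2 : ‖E i - E i₁‖ = ρ' := by
          refine le_antisymm ?_ h1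
          rw [show E i - E i₁ = (E i - E i₁') + -(E i₁ - E i₁') by ring]
          refine (IsUltrametricDist.norm_add_le_max _ _).trans (max_le hi' ?_)
          rw [norm_neg]
          exact h
        have h3 := hw.out i (by rw [h2]; exact h')
        have hne : E i₁ - E i ≠ 0 := by
          rw [← norm_pos_iff, norm_sub_rev, h2]
          exact hw'.pos
        have h4 : nu hk (w i) = n * m := by
          rw [h3, nu_smul, nu_cl hk hne (m := m) (by rw [norm_sub_rev, h2, hm])]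
        have h5 : nu hk (w' i) = nu hk η := by
          rw [hnu i hi', hη, hnu i₁ hi₁]
        rw [tm, tm, h4, h5]
        module
    rw [sum_congr rfl key, sum_add_distrib, sum_sub_distrib, ← smul_sum, ← smul_sum, hSw']
    have h6 : ∑ i ∈ S, (a i : ZMod ℓ) • tm hk (w i) η = -(n • tm hk (outC ℓ a E i₁' ρ') η) := by
      rw [← tm_smul_left, ← tm_neg_left, ← hSw, tm_sum_left]
      exact sum_congr rfl fun i _ => (tm_smul_left hk _ _ _).symm
    have h7 : ∑ i ∈ S, (a i : ZMod ℓ) • η = inA ℓ a E i₁' ρ' • η := by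
      rw [inA, sum_smul]
    rw [h6, h7, tm, hnu i₁ hi₁]
    -- the sum of the valuations
    have h8 : n' * (nu hk (outC ℓ a E i₁' ρ') + inA ℓ a E i₁' ρ' * m) = 0 := by
      have h9 := congrArg (nu hk) hSw'
      rw [map_sum, map_neg, nu_smul] at h9
      have h10 : ∑ i ∈ S, nu hk ((a i : ZMod ℓ) • w' i) = inA ℓ a E i₁' ρ' * (n' * m) := by
        rw [inA, sum_mul]
        refine sum_congr rfl fun i hi => ?_
        rw [nu_smul, hnu i (mem_filter.1 hi).2]
      rw [h10] at h9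
      linear_combination h9
    have h11 := hlast i₁ hi₁
    rw [← hη, smul_sub, smul_smul, sub_eq_zero] at h11
    have h12 : (nu hk (outC ℓ a E i₁' ρ') + inA ℓ a E i₁' ρ' * m) * (n' * m) = 0 := by
      linear_combination (m : ZMod ℓ) * h8
    rw [h12, zero_smul] at h11
    have h13 : -(n • ((n' * (m : ZMod ℓ)) • outC ℓ a E i₁' ρ' - nu hk (outC ℓ a E i₁' ρ') • η)) -
        (n * (m : ZMod ℓ)) • -(n' • outC ℓ a E i₁' ρ') +
          (n * (m : ZMod ℓ)) • (inA ℓ a E i₁' ρ' • η) =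
        n • ((nu hk (outC ℓ a E i₁' ρ') + inA ℓ a E i₁' ρ' * m) • η) := by
      module
    rw [h13, h11, smul_zero]
  · have h1 : ∑ i ∈ S, (a i : ZMod ℓ) • tm hk (w i) (w' i) =
        tm hk (∑ i ∈ S, (a i : ZMod ℓ) • w i) (w' i₁') := by
      rw [tm_sum_left]
      refine sum_congr rfl fun i hi => ?_
      rw [tm_smul_left, hconst i (mem_filter.1 hi).2]
    rw [h1, hSw, tm_neg_left, tm_smul_left, htm, smul_zero, neg_zero]

end Local

end Pool.Agent.Helper54.PT
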