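import Pool.Agent.Helper54.PT.LocG

/-!
# Equal discs
-/

set_option autoImplicit false

namespace Pool.Agent.Helper54.PT

open Finset Pool.Agent.Helper43.TW Pool.Agent.Helper47.BSD

universe u

section Local

variable {k : Type u} [NontriviallyNormedField k] [IsUltrametricDist k] [CompleteSpace k]
  {ℓ : ℕ} {π : k} {ι : Type} [Fintype ι] [DecidableEq ι] {a : ι → ℕ} {E : ι → k}

variable {w w' : ι → Cl ℓ k} {i₁ i₁' : ι} {ρ ρ' : ℝ} {n n' : ZMod ℓ}

/-- L5c: equal discs -/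
theorem ptAt_eq (hℓ : ℓ.Prime) (hk : LF ℓ π) (hc : cl ℓ (-1 : k) = 0)
    (hE : ∀ i j, i ≠ j → E i ≠ E j) (hw : PtAt hk a E w i₁ ρ n) (hw' : PtAt hk a E w' i₁' ρ n')
    (h : ‖E i₁ - E i₁'‖ ≤ ρ) : ∑ i, (a i : ZMod ℓ) • tm hk (w i) (w' i) = 0 := by
  classical
  -- the two discs are equal
  have hiff : ∀ i, ‖E i - E i₁‖ ≤ ρ ↔ ‖E i - E i₁'‖ ≤ ρ := by
    intro i
    constructor
    · intro h1
      rw [show E i - E i₁' = (E i - E i₁) + (E i₁ - E i₁') by ring]
      exact (IsUltrametricDist.norm_add_le_max _ _).trans (max_le h1 h)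
    · intro h1
      rw [show E i - E i₁ = (E i - E i₁') + -(E i₁ - E i₁') by ring]
      refine (IsUltrametricDist.norm_add_le_max _ _).trans (max_le h1 ?_)
      rw [norm_neg]
      exact h
  have hout' : ∀ i, ρ < ‖E i - E i₁'‖ → w' i = n' • cl ℓ (E i₁' - E i) := hw'.out
  have hcl : ∀ i, ρ < ‖E i - E i₁'‖ → cl ℓ (E i₁ - E i) = cl ℓ (E i₁' - E i) := by
    intro i hi
    exact (cl_near hℓ hk (x := E i₁ - E i) (y := E i₁' - E i) (by
      rw [show E i₁ - E i - (E i₁' - E i) = E i₁ - E i₁' by ring, norm_sub_rev (E i₁') (E i)]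
      exact h.trans_lt hi)).2.2
  have hout : ∀ i, ρ < ‖E i - E i₁'‖ → w i = n • cl ℓ (E i₁' - E i) := by
    intro i hi
    rw [hw.out i (not_le.1 fun h1 => not_le.2 hi ((hiff i).1 h1)), hcl i hi]
  have hmem : ‖E i₁ - E i₁'‖ ≤ ρ := h
  have hmem' : ‖E i₁' - E i₁'‖ ≤ ρ := (hiff i₁').1 (by rwa [norm_sub_rev])
  set S := univ.filter (fun i => ‖E i - E i₁'‖ ≤ ρ) with hS
  set O := univ.filter (fun i => ρ < ‖E i - E i₁'‖) with hO
  have hsplit : ∀ f : ι → Cl ℓ k, ∑ i, f i = ∑ i ∈ S, f i + ∑ i ∈ O, f i := by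
    intro f
    rw [hS, hO, ← sum_filter_add_sum_filter_not univ (fun i => ‖E i - E i₁'‖ ≤ ρ) f]
    simp only [not_le]
  have hC : outC ℓ a E i₁ ρ = outC ℓ a E i₁' ρ := by
    rw [outC, outC, ← hO]
    refine sum_congr ?_ fun i hi => ?_
    · rw [hO]
      refine filter_congr fun i _ => ?_
      rw [← not_le, ← not_le, not_iff_not]
      exact hiff i
    · rw [hcl i (mem_filter.1 hi).2]
  have hOw : ∑ i ∈ O, (a i : ZMod ℓ) • w i = n • outC ℓ a E i₁' ρ := by
    rw [outC, smul_sum]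
    refine sum_congr rfl fun i hi => ?_
    rw [hout i (mem_filter.1 hi).2, smul_comm]
  have hOw' : ∑ i ∈ O, (a i : ZMod ℓ) • w' i = n' • outC ℓ a E i₁' ρ := by
    rw [outC, smul_sum]
    refine sum_congr rfl fun i hi => ?_
    rw [hout' i (mem_filter.1 hi).2, smul_comm]
  have hSw : ∑ i ∈ S, (a i : ZMod ℓ) • w i = -(n • outC ℓ a E i₁' ρ) := by
    have h1 := hw.rel
    rw [hsplit, hOw] at h1
    exact eq_neg_of_add_eq_zero_left h1
  have hSw' : ∑ i ∈ S, (a i : ZMod ℓ) • w' i = -(n' • outC ℓ a E i₁' ρ) := by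
    have h1 := hw'.rel
    rw [hsplit, hOw'] at h1
    exact eq_neg_of_add_eq_zero_left h1
  have hO0 : ∑ i ∈ O, (a i : ZMod ℓ) • tm hk (w i) (w' i) = 0 := by
    refine sum_eq_zero fun i hi => ?_
    rw [hout i (mem_filter.1 hi).2, hout' i (mem_filter.1 hi).2, tm_smul_left, tm_smul_right,
      tm_self, smul_zero, smul_zero, smul_zero]
  rw [hsplit, hO0, add_zero]
  rcases hw.ins with ⟨m, hm, hnu, heq, -⟩ | ⟨hconst, hclose, htm⟩
  · rcases hw'.ins with ⟨m', hm', hnu', -, -⟩ | ⟨hconst', hclose', htm'⟩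
    · have hmm : m' = m := zpow_pi_inj hk (by rw [← hm, ← hm'])
      subst hmm
      have key : ∀ i ∈ S, (a i : ZMod ℓ) • tm hk (w i) (w' i) =
          (n' * (m' : ZMod ℓ)) • ((a i : ZMod ℓ) • w i) -
            (n * (m' : ZMod ℓ)) • ((a i : ZMod ℓ) • w' i) := by
        intro i hi
        have hi' := (mem_filter.1 hi).2
        rw [tm, hnu i ((hiff i).2 hi'), hnu' i hi']
        module
      rw [sum_congr rfl key, sum_sub_distrib, ← smul_sum, ← smul_sum, hSw, hSw']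
      module
    · have h1 : ∑ i ∈ S, (a i : ZMod ℓ) • tm hk (w i) (w' i) =
          tm hk (∑ i ∈ S, (a i : ZMod ℓ) • w i) (w' i₁') := by
        rw [tm_sum_left]
        refine sum_congr rfl fun i hi => ?_
        rw [tm_smul_left, hconst' i (mem_filter.1 hi).2]
      rw [h1, hSw, tm_neg_left, tm_smul_left, htm', smul_zero, neg_zero]
  · have hconst' : ∀ i ∈ S, w' i = w' i₁' := by
      intro i hi
      have hi' := (mem_filter.1 hi).2
      rcases hw'.ins with ⟨m', hm', hnu', heq', -⟩ | ⟨hconst', -, -⟩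
      · exact heq' i i₁' hi' hmem' (hclose i i₁' ((hiff i).2 hi') ((hiff i₁').2 hmem'))
      · exact hconst' i hi'
    have h1 : ∑ i ∈ S, (a i : ZMod ℓ) • tm hk (w i) (w' i) =
        tm hk (w i₁) (∑ i ∈ S, (a i : ZMod ℓ) • w' i) := by
      rw [tm_sum_right]
      refine sum_congr rfl fun i hi => ?_
      rw [tm_smul_right, hconst i ((hiff i).2 (mem_filter.1 hi).2)]
    rw [h1, hSw', tm_neg_right, tm_smul_right, tm_swap, ← hC, htm, neg_zero, smul_zero, neg_zero]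

end Local

end Pool.Agent.Helper54.PT
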